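import Pool.Agent.K7.H28.CO.O4

/-!
# Homeomorphisms of smooth 4-manifolds which are coarsely monotone at one scale

Let `M` and `N` be smooth 4-manifolds and `g : M → N` a homeomorphism. We show that `M` and `N` are
diffeomorphic, by a diffeomorphism which agrees with `g` outside a compact set, if `g` belongs to the class
`Coarse ε₀ κ` (where `ε₀, κ > 0` are universal). So for the pairs of homeomorphic 4-manifolds which are
related by a homeomorphism in this class, the answer to the question whether they are diffeomorphic is
always affirmative. The class contains:

* the homeomorphisms which are smooth of rank at least three, or cone monotone, or asymptotically affine at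
  small scales, or (between open subsets of `ℝ⁴`) `ε₀`-almost affine at small scales, at their bad points
  (the class `Tame ε₀`);
* the homeomorphisms `g : V → W` between open subsets of `ℝ⁴` which are coarsely monotone at one variable
  scale `r(x)`: `r ≥ 0` is a smooth function with compact support in `V`, positive where `g` is not a local
  diffeomorphism, and at each `x` with `r(x) > 0` there are for every direction `u` a linear functional `ℓ`
  such that the increments of `ℓ ∘ g` in the ball of radius `r(x)` in the direction `u` are positive up to
  errors `κ m r(x)`, in the sense `ℓ (g (y + t u) - g y) ≥ m t - κ m r(x)`, `|ℓ (g y - g x)| ≤ r(x)`. Nothing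
  is assumed on `g` at scales smaller than `κ r(x)` (except that it is a homeomorphism), and the diffeomorphism
  is not close to `g`: so `g` may be arbitrarily wild at the scales smaller than `κ r(x)`, for instance `V`
  may be any coordinate domain of a closed manifold and `g` the composition of a linear map with any
  homeomorphism which moves the points by less than `κ r(x) / 3`;

and it is closed under inverses, compositions and extensions: `g` belongs to the class if its bad points are
contained in an open set on which it restricts to a member of the class. So the bad points may be contained
in the union of several coordinate domains, which are treated one after the other, also by factoring `g`.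

Proof. For a coarsely monotone `g : V → W` the mollification `F` of `g` with radius `r(x) / 5` is a local
diffeomorphism, since its derivative in the direction `u` is mapped to a positive number by `ℓ`. It agrees
with `g` off a compact set. For `y ∈ ℝ⁴` the number of preimages of `y` under `F` is `1` if `y ∈ W` and `0`
otherwise, since the difference is locally constant on `ℝ⁴`, also at the boundary of `W`, and vanishes far
away; so `F` is a diffeomorphism from `V` to `W`.
-/

set_option autoImplicit false

open Set Filter Topology Metric Function
open scoped Manifold ContDiff

noncomputable section

namespace Pool.Agent.Results.MP_d40431_gt.CoarselyMonotoneHomeomorphisms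

open Pool.Agent.K7.H28.AF.T4 Pool.Agent.K7.H28.CO.T4

attribute [-instance] TopCat.of.chartedSpace

/-- There are universal constants `ε₀, κ > 0` such that smooth 4-manifolds `M` and `N` are diffeomorphic
whenever some homeomorphism `g : M → N` belongs to the class `Coarse ε₀ κ`; the diffeomorphism can be chosen
equal to `g` outside a compact set. -/
theorem result : ∃ ε₀ κ : ℝ, 0 < ε₀ ∧ 0 < κ ∧ ∀ (M N : Mfd4) (g : M ≃ₜ N), Coarse ε₀ κ M N g →
    ∃ (Φ : Diffeomorph (𝓡 4) (𝓡 4) M N ∞) (C : Set M), IsCompact C ∧ ∀ x, x ∉ C → Φ x = g x :=
  smoothable_coarse

end Pool.Agent.Results.MP_d40431_gt.CoarselyMonotoneHomeomorphisms
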