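import Pool.Agent.K7.H28.DP.D2

/-!
# Deciding diffeomorphism of hypersurfaces of `ℝ⁵` by finitely many signs

Let a smooth closed 4-manifold be given as a hypersurface `X = {h = 0}` of `ℝ⁵`, `h` a defining function,
and let an algorithm have access to `h` by a program which computes the signs of `h` at the rational points
(for example, because `h` is a polynomial with rational coefficients). For `0 < θ < 1` and `R, ρ₀ > 0` let
`C(R, ρ₀)` be the class of the hypersurfaces in the ball of radius `R` which are coarse Lipschitz graphs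
at every scale `r ≤ ρ₀`: in each ball of radius `r` about one of its points all vectors of length `≥ ε r`
in a cone of aperture `θ` about some direction (which may depend on the ball) lead from `{h ≥ 0}` to
`{h > 0}`; here `ε = ε(θ)`. There is no bound for the curvature, and every closed smooth hypersurface is
contained in one of these classes. We show, for hypersurfaces of `ℝⁿ`, `n` arbitrary:

* for each of the classes there is an algorithm which decides whether two members `X₁`, `X₂` of the class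
  are diffeomorphic; it halts and answers correctly for all pairs in the class (homeomorphic or not);
* it suffices to evaluate the signs at the points of a cubic grid with mesh about `κ ρ₀`, that is at
  `O((R / ρ₀)ⁿ)` points: if the signs of `h` and `k` are the same at these points then a diffeomorphism
  of `ℝⁿ` with compact support maps `{h ≤ 0}` onto `{k ≤ 0}` and `{h = 0}` onto `{k = 0}`. So the class
  contains only finitely many diffeomorphism types.

In particular the answer to the question is positive for the pairs of 4-manifolds which have such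
presentations in a fixed class `C(R, ρ₀)`, also if the manifolds are given by triangulations, because there
are only finitely many of them up to diffeomorphism, and diffeomorphism of triangulated 4-manifolds can be
verified by an algorithm. (The algorithm depends on the class; by the exhaustion, an algorithm which is
uniform in `R` and `ρ₀` would decide diffeomorphism for all 4-manifolds which embed in `ℝ⁵`.)
-/

set_option autoImplicit false

open Set Filter Topology Metric Function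
open scoped ContDiff
open Nat.Partrec (Code)

namespace Pool.Agent.Results.MP_d40431_gt.HypersurfaceAlgorithm

/-- `ℝⁿ` -/
abbrev R (n : ℕ) : Type := EuclideanSpace ℝ (Fin n)

/-- `{h = 0}` is a closed smooth hypersurface and `h` is a defining function, bounded below by a
positive constant outside a compact set -/
structure Defining {n : ℕ} (h : R n → ℝ) : Prop where
  smooth : ContDiff ℝ ∞ h
  far : ∃ R c : ℝ, 0 < c ∧ ∀ x, R ≤ ‖x‖ → c ≤ h x
  regular : ∀ x, h x = 0 → fderiv ℝ h x ≠ 0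

/-- `{h = 0}` is a coarse graph in the direction `ν` in the ball of radius `r` about `x`, with
aperture `θ` and error `ε r`: if `y` and `y'` are in this ball, `y'` lies above `y` in the sense that
`|y' - y - τ ν| ≤ θ τ` for some `τ ≥ ε r`, and `h y ≥ 0`, then `h y' > 0` -/
def CoarseGraph {n : ℕ} (θ ε : ℝ) (h : R n → ℝ) (x : R n) (r : ℝ) (ν : R n) : Prop :=
  ∀ (y y' : R n) (τ : ℝ), ‖y - x‖ ≤ r → ‖y' - x‖ ≤ r → ε * r ≤ τ → ‖y' - y - τ • ν‖ ≤ θ * τ →
    0 ≤ h y → 0 < h y'

/-- the class `C(b, ρ₀)`: the hypersurface `{h = 0}` is contained in the open ball of radius `b`, outside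
of which `h` is positive, and it is a coarse graph, in some direction, at each of its points and at every
scale `≤ ρ₀` -/
structure InClass {n : ℕ} (θ ε b ρ₀ : ℝ) (h : R n → ℝ) : Prop where
  defining : Defining h
  inside : ∀ x, b ≤ ‖x‖ → 0 < h x
  graph : ∀ x, h x = 0 → ∀ r, 0 < r → r ≤ ρ₀ → ∃ ν : R n, ‖ν‖ = 1 ∧ CoarseGraph θ ε h x r ν

/-- the manifolds `{h = 0}` and `{k = 0}` are diffeomorphic: there are mutually inverse maps between them
which are restrictions of smooth maps of `ℝⁿ` -/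
def Diffeomorphic {n : ℕ} (h k : R n → ℝ) : Prop :=
  ∃ A B : R n → R n, ContDiff ℝ ∞ A ∧ ContDiff ℝ ∞ B ∧ (∀ x, h x = 0 → k (A x) = 0 ∧ B (A x) = x) ∧
    ∀ y, k y = 0 → h (B y) = 0 ∧ A (B y) = y

/-- some diffeomorphism `Φ` of `ℝⁿ`, equal to the identity outside a compact set, maps `{h ≤ 0}` onto
`{k ≤ 0}` and `{h = 0}` onto `{k = 0}` -/
def Equivalent {n : ℕ} (h k : R n → ℝ) : Prop :=
  ∃ Φ : R n → R n, ContDiff ℝ ∞ Φ ∧
    (∃ Ψ : R n → R n, ContDiff ℝ ∞ Ψ ∧ LeftInverse Ψ Φ ∧ RightInverse Ψ Φ) ∧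
    (∃ b : ℝ, ∀ x, b ≤ ‖x‖ → Φ x = x) ∧ Φ '' {x | h x ≤ 0} = {x | k x ≤ 0} ∧
    Φ '' {x | h x = 0} = {x | k x = 0}

/-- a point with rational coordinates -/
noncomputable def pt {n : ℕ} (q : Fin n → ℚ) : R n := WithLp.toLp 2 fun i => (q i : ℝ)

/-- the program `c` computes the signs of `h` at the rational points: the result is 1 if `h > 0` and 0 if
`h ≤ 0` at the point -/
def ComputesSigns {n : ℕ} (c : Code) (h : R n → ℝ) : Prop :=
  ∀ q : Fin n → ℚ, (0 < h (pt q) → 1 ∈ c.eval (Encodable.encode q)) ∧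
    (h (pt q) ≤ 0 → 0 ∈ c.eval (Encodable.encode q))

theorem equivalent_of {n : ℕ} {h k : R n → ℝ} {Φ Ψ : R n → R n} (H : Pool.Agent.K7.H28.GS.Cpt Φ Ψ)
    (hs : ∀ x, (0 < k (Φ x) ↔ 0 < h x) ∧ (k (Φ x) < 0 ↔ h x < 0)) : Equivalent h k := by
  obtain ⟨h1, h2, h3, h4, R, hR⟩ := H
  have hle : ∀ x, k (Φ x) ≤ 0 ↔ h x ≤ 0 := fun x => by
    rw [← not_lt, ← not_lt, (hs x).1]
  have heq : ∀ x, k (Φ x) = 0 ↔ h x = 0 := fun x => by
    have e := hs x
    constructor
    · intro h0
      exact le_antisymm (not_lt.1 fun h' => (e.1.2 h').ne' h0)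
        (not_lt.1 fun h' => (e.2.2 h').ne h0)
    · intro h0
      exact le_antisymm (not_lt.1 fun h' => (e.1.1 h').ne' h0)
        (not_lt.1 fun h' => (e.2.1 h').ne h0)
  refine ⟨Φ, h1, ⟨Ψ, h2, h3, h4⟩, ⟨R, hR⟩, ?_, ?_⟩
  · ext y
    constructor
    · rintro ⟨x, hx, rfl⟩
      exact (hle x).2 hx
    · intro hy
      refine ⟨Ψ y, ?_, h4 y⟩
      have hy' : k y ≤ 0 := hy
      rw [← h4 y] at hy'
      exact (hle _).1 hy'
  · ext y
    constructor
    · rintro ⟨x, hx, rfl⟩
      exact (heq x).2 hx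
    · intro hy
      refine ⟨Ψ y, ?_, h4 y⟩
      have hy' : k y = 0 := hy
      rw [← h4 y] at hy'
      exact (heq _).1 hy'

theorem Equivalent.diffeomorphic {n : ℕ} {h k : R n → ℝ} (H : Equivalent h k) :
    Diffeomorphic h k := by
  obtain ⟨Φ, h1, ⟨Ψ, h2, h3, h4⟩, -, -, h5⟩ := H
  refine ⟨Φ, Ψ, h1, h2, fun x hx => ⟨?_, h3 x⟩, fun y hy => ⟨?_, h4 y⟩⟩
  · have h6 : Φ x ∈ {x | k x = 0} := by
      rw [← h5]
      exact ⟨x, hx, rfl⟩
    exact h6
  · have h6 : y ∈ Φ '' {x | h x = 0} := by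
      rw [h5]
      exact hy
    obtain ⟨x, hx, rfl⟩ := h6
    rw [h3]
    exact hx

theorem Diffeomorphic.symm {n : ℕ} {h k : R n → ℝ} (H : Diffeomorphic h k) :
    Diffeomorphic k h := by
  obtain ⟨A, B, h1, h2, h3, h4⟩ := H
  exact ⟨B, A, h2, h1, h4, h3⟩

theorem Diffeomorphic.trans {n : ℕ} {h k l : R n → ℝ} (H : Diffeomorphic h k)
    (H' : Diffeomorphic k l) : Diffeomorphic h l := by
  obtain ⟨A, B, h1, h2, h3, h4⟩ := H
  obtain ⟨A', B', h1', h2', h3', h4'⟩ := H'
  refine ⟨fun x => A' (A x), fun x => B (B' x), h1'.comp h1, h2.comp h2', fun x hx => ?_,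
    fun y hy => ?_⟩
  · obtain ⟨a1, a2⟩ := h3 x hx
    obtain ⟨b1, b2⟩ := h3' _ a1
    exact ⟨b1, by simp only [b2, a2]⟩
  · obtain ⟨a1, a2⟩ := h4' y hy
    obtain ⟨b1, b2⟩ := h4 _ a1
    exact ⟨b1, by simp only [b2, a2]⟩

/-- Let `n` be a natural number. For every `0 < θ < 1` there are `ε, κ > 0` with the following
properties, for all `b` and all `ρ₀ > 0`.

(1) There is an algorithm `A` (a partial recursive function on pairs of programs) such that, for all
`h`, `k` in the class `C(b, ρ₀)` of hypersurfaces of `ℝⁿ` and all programs `c`, `c'` which compute the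
signs of `h` and `k` at the rational points, `A` halts on `(c, c')`, with the output `true` if `{h = 0}`
and `{k = 0}` are diffeomorphic and with the output `false` if they are not.

(2) Let `δ > 0` with `√n δ ≤ κ ρ₀`. If `h` and `k` are in the class `C(b, ρ₀)` and `h(δ z) > 0` is
equivalent to `k(δ z) > 0` for all `z ∈ ℤⁿ` with `|δ z_i| ≤ b` for all `i`, then a diffeomorphism of `ℝⁿ`
with compact support maps `{h ≤ 0}` onto `{k ≤ 0}` and `{h = 0}` onto `{k = 0}`.

(3) Every closed smooth hypersurface is in the class `C(b, ρ₀)` for some `b` and `ρ₀`. -/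
theorem result (n : ℕ) (θ : ℝ) (hθ : 0 < θ) (hθ1 : θ < 1) : ∃ ε κ : ℝ, 0 < ε ∧ 0 < κ ∧
    (∀ b ρ₀ : ℝ, 0 < ρ₀ → ∃ A : Code × Code →. Bool, Partrec A ∧
      ∀ h k : R n → ℝ, InClass θ ε b ρ₀ h → InClass θ ε b ρ₀ k →
      ∀ c c' : Code, ComputesSigns c h → ComputesSigns c' k →
        ∃ r : Bool, r ∈ A (c, c') ∧ (r = true ↔ Diffeomorphic h k)) ∧
    (∀ b ρ₀ δ : ℝ, 0 < ρ₀ → 0 < δ → Real.sqrt n * δ ≤ κ * ρ₀ →
      ∀ h k : R n → ℝ, InClass θ ε b ρ₀ h → InClass θ ε b ρ₀ k →
      (∀ z : Fin n → ℤ, (∀ i, |δ * z i| ≤ b) →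
        (0 < h (WithLp.toLp 2 fun i => δ * (z i : ℝ)) ↔
          0 < k (WithLp.toLp 2 fun i => δ * (z i : ℝ)))) → Equivalent h k) ∧
    ∀ h : R n → ℝ, Defining h → ∃ b ρ₀ : ℝ, 0 < ρ₀ ∧ InClass θ ε b ρ₀ h := by
  classical
  obtain ⟨ε, κ, hε, hκ, key⟩ := Pool.Agent.K7.H28.GS.recognition n θ hθ hθ1.le
  have grid : ∀ b ρ₀ δ : ℝ, 0 < ρ₀ → 0 < δ → Real.sqrt n * δ ≤ κ * ρ₀ →
      ∀ h k : R n → ℝ, InClass θ ε b ρ₀ h → InClass θ ε b ρ₀ k →
      (∀ z : Fin n → ℤ, (∀ i, |δ * z i| ≤ b) →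
        (0 < h (WithLp.toLp 2 fun i => δ * (z i : ℝ)) ↔
          0 < k (WithLp.toLp 2 fun i => δ * (z i : ℝ)))) → Equivalent h k := by
    intro b ρ₀ δ hρ₀ hδ hδκ h k hh hk hs
    obtain ⟨T, hT⟩ : ∃ T : Set (R n), T = {g | ∃ z : Fin n → ℤ, (∀ i, |δ * z i| ≤ b) ∧
        g = WithLp.toLp 2 fun i => δ * (z i : ℝ)} ∪ {g | b ≤ ‖g‖} := ⟨_, rfl⟩
    have hT1 : ∀ y : R n, ∃ g ∈ T, ‖g - y‖ ≤ κ * ρ₀ := by
      intro y
      rw [hT]
      rcases le_or_gt b ‖y‖ with hy | hy
      · exact ⟨y, Or.inr hy, by rw [sub_self, norm_zero]; positivity⟩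
      · obtain ⟨z, hz1, hz2⟩ := Pool.Agent.K7.H28.DP.near_grid hδ y
        exact ⟨_, Or.inl ⟨z, fun i => (hz1 i).trans
          ((Pool.Agent.K7.H28.DP.abs_coord_le y i).trans hy.le), rfl⟩, hz2.trans hδκ⟩
    have hT2 : ∀ g ∈ T, 0 < h g ↔ 0 < k g := by
      intro g hg
      rw [hT] at hg
      rcases hg with ⟨z, hz, rfl⟩ | hg
      · exact hs z hz
      · exact ⟨fun _ => hk.inside g hg, fun _ => hh.inside g hg⟩
    obtain ⟨Φ, Ψ, H, hsg⟩ := key h k (fun _ => ρ₀)
      ⟨hh.defining.smooth, hh.defining.far, hh.defining.regular⟩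
      ⟨hk.defining.smooth, hk.defining.far, hk.defining.regular⟩
      ⟨contDiff_const, fun _ => hρ₀, fun x => by simpa using hε.le⟩ hh.graph hk.graph T hT1 hT2
    exact equivalent_of H hsg
  refine ⟨ε, κ, hε, hκ, fun b ρ₀ hρ₀ => ?_, grid, fun h hh => ?_⟩
  · obtain ⟨δ, hδ0, hδ1⟩ : ∃ δ : ℚ, 0 < δ ∧ Real.sqrt n * (δ : ℝ) ≤ κ * ρ₀ := by
      obtain ⟨δ, h1, h2⟩ := exists_rat_btwn (show 0 < κ * ρ₀ / (Real.sqrt n + 1) by positivity)
      refine ⟨δ, by exact_mod_cast h1, ?_⟩
      rw [lt_div_iff₀ (by positivity)] at h2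
      nlinarith [Real.sqrt_nonneg (n : ℝ)]
    have hδR : (0 : ℝ) < δ := by exact_mod_cast hδ0
    obtain ⟨sg, hsg⟩ : ∃ sg : (R n → ℝ) → ℕ → ℕ, sg = fun h e =>
        match (Encodable.decode e : Option (Fin n → ℚ)) with
        | some q => if 0 < h (pt q) then 1 else 0
        | none => 0 := ⟨_, rfl⟩
    have hsgq : ∀ (h : R n → ℝ) (q : Fin n → ℚ),
        sg h (Encodable.encode q) = if 0 < h (pt q) then 1 else 0 := by
      intro h q
      rw [hsg]
      simp only [Encodable.encodek]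
    have hfin := Pool.Agent.K7.H28.DP.grid_finite (n := n) (R := b) hδR
    obtain ⟨L, hL⟩ : ∃ L : List ℕ, L = hfin.toFinset.toList.map fun z : Fin n → ℤ =>
        Encodable.encode (fun i => δ * (z i : ℚ) : Fin n → ℚ) := ⟨_, rfl⟩
    have hLmem : ∀ z : Fin n → ℤ, (∀ i, |(δ : ℝ) * z i| ≤ b) →
        Encodable.encode (fun i => δ * (z i : ℚ) : Fin n → ℚ) ∈ L := by
      intro z hz
      rw [hL]
      refine List.mem_map.2 ⟨z, ?_, rfl⟩
      rw [Finset.mem_toList, Set.Finite.mem_toFinset]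
      exact hz
    have hLq : ∀ e ∈ L, ∃ q : Fin n → ℚ, e = Encodable.encode q := by
      intro e he
      rw [hL] at he
      obtain ⟨z, _, rfl⟩ := List.mem_map.1 he
      exact ⟨_, rfl⟩
    have hpt : ∀ z : Fin n → ℤ, pt (fun i => δ * (z i : ℚ)) =
        (WithLp.toLp 2 fun i => (δ : ℝ) * (z i : ℝ) : R n) := by
      intro z
      unfold pt
      congr 1
      funext i
      push_cast
      rfl
    have heq : ∀ h k : R n → ℝ, InClass θ ε b ρ₀ h → InClass θ ε b ρ₀ k →
        (∀ e ∈ L, sg h e = sg k e) → Equivalent h k := by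
      intro h k hh hk hs
      refine grid b ρ₀ δ hρ₀ hδR hδ1 h k hh hk fun z hz => ?_
      have h1 := hs _ (hLmem z hz)
      rw [hsgq, hsgq, hpt] at h1
      by_cases h2 : 0 < h (WithLp.toLp 2 fun i => (δ : ℝ) * (z i : ℝ))
      · rw [if_pos h2] at h1
        refine ⟨fun _ => ?_, fun _ => h2⟩
        by_contra h3
        rw [if_neg h3] at h1
        exact absurd h1 (by norm_num)
      · rw [if_neg h2] at h1
        refine ⟨fun h3 => absurd h3 h2, fun h3 => ?_⟩
        rw [if_pos h3] at h1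
        exact absurd h1 (by norm_num)
    obtain ⟨A, hA, hA2⟩ := Pool.Agent.K7.H28.DP.algorithm (InClass (n := n) θ ε b ρ₀)
      Diffeomorphic L sg (fun h e => by
        rw [hsg]
        simp only
        split
        · split <;> norm_num
        · norm_num)
      (fun h h' k k' hh hh' hk hk' h1 h2 hr =>
        ((heq h h' hh hh' h1).diffeomorphic.trans hr).trans (heq k k' hk hk' h2).diffeomorphic.symm)
    refine ⟨A, hA, fun h k hh hk c c' hc hc' => hA2 h k hh hk c c' ?_ ?_⟩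
    · intro e he
      obtain ⟨q, rfl⟩ := hLq e he
      rw [hsgq]
      by_cases h2 : 0 < h (pt q)
      · rw [if_pos h2]
        exact (hc q).1 h2
      · rw [if_neg h2]
        exact (hc q).2 (not_lt.1 h2)
    · intro e he
      obtain ⟨q, rfl⟩ := hLq e he
      rw [hsgq]
      by_cases h2 : 0 < k (pt q)
      · rw [if_pos h2]
        exact (hc' q).1 h2
      · rw [if_neg h2]
        exact (hc' q).2 (not_lt.1 h2)
  · obtain ⟨ρ₀, hρ₀, hC⟩ := Pool.Agent.K7.H28.GS.exhaust (h := h)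
      ⟨hh.smooth, hh.far, hh.regular⟩ hθ hθ1 hε
    obtain ⟨b, c, hc, hb⟩ := hh.far
    exact ⟨b, ρ₀, hρ₀, hh, fun x hx => hc.trans_le (hb x hx), hC⟩

end Pool.Agent.Results.MP_d40431_gt.HypersurfaceAlgorithm
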