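import Pool.Agent.K7.H28.TR.T7
import Pool.Agent.K7.H28.DP.D2
import Pool.Agent.K7.H28.DP.D3

/-!
# Deciding diffeomorphism of 4-manifolds given as zero sets, in any codimension and with symmetries

Let a closed smooth manifold be given as `X = {F = 0, g < 0}`, where `F : ℝⁿ → ℝ^q` and `g : ℝⁿ → ℝ` are
smooth and `0` is a regular value of `F` on the window `{g < 0}` (a framed submanifold), or, more
generally, as the orbit space `X / Γ` of such a zero set, where `Γ` acts on `ℝⁿ` and `ℝ^q` by linear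
isometries, `F` is equivariant and `g` is invariant. All closed smooth 4-manifolds are of this kind: take
the bundle of orthonormal frames of the normal bundle of an embedding in `ℝ⁹`, and `Γ = O(5)` (remark, not
formalised here). An algorithm has access to `F` and `g` by programs which compute approximations of the
values at rational points.

For a constant `κ = κ(n) > 0` let `C(m, b, ρ₀)` be the class of the pairs `(F, g)` with Lipschitz constant
one and bounded by `b`, for which `{g < 2ρ₀}` is in the ball of radius `b`, `|F| ≥ 2ρ₀` where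
`|g| < 2ρ₀`, and, at each `x` in the window and every scale `r ≤ ρ₀` with `|F x| < r`, `F` is coarsely
submersive on the ball of radius `r` about `x`: there is a `q`-dimensional subspace `P` such that, for each
unit vector `u` of `P`, some linear functional `ℓ` of norm `≤ 1` satisfies
`ℓ (F (y + t u) - F y) ≥ m (t - κ r)`. There is no condition on second derivatives, and `P` may turn
arbitrarily between the scales. We show:

* each class has an algorithm which decides, for pairs of members of the class, every relation which is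
  invariant under equivariant diffeomorphisms of `ℝⁿ`, such as diffeomorphism of the orbit spaces;
* the values at the points of a cubic grid with mesh about `κ m ρ₀`, up to errors of this size, determine
  the zero set up to an equivariant diffeomorphism of `ℝⁿ` with compact support;
* the classes exhaust all regular pairs, and (without symmetries) all compact framed submanifolds.
-/

set_option autoImplicit false

open Set Filter Topology Metric Function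
open scoped ContDiff
open Nat.Partrec (Code)

namespace Pool.Agent.Results.MP_d40431_gt.ZeroSetAlgorithm

/-- `ℝⁿ` -/
abbrev R (n : ℕ) : Type := EuclideanSpace ℝ (Fin n)

/-- a linear isometry of `ℝⁿ` together with a linear isometry of `ℝ^q` -/
abbrev Symmetry (n q : ℕ) : Type := (R n ≃ₗᵢ[ℝ] R n) × (R q ≃ₗᵢ[ℝ] R q)

/-- `F` is coarsely submersive on the ball of radius `r` about `x`: for every unit vector `u` of some
`q`-dimensional subspace `P` there is a linear functional `ℓ` of norm at most one such that the increments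
of `ℓ ∘ F` in the direction `u` in the ball are at least `m t - κ m r`, `t` being the length of the step -/
def CoarselySubmersive {n q : ℕ} (κ m : ℝ) (F : R n → R q) (x : R n) (r : ℝ) : Prop :=
  ∃ P : Submodule ℝ (R n), Module.finrank ℝ P = q ∧ ∀ u ∈ P, ‖u‖ = 1 →
    ∃ ℓ : R q →L[ℝ] ℝ, ‖ℓ‖ ≤ 1 ∧ ∀ (y : R n) (t : ℝ), 0 < t → ‖y - x‖ ≤ r →
      ‖y + t • u - x‖ ≤ r → m * t - κ * m * r ≤ ℓ (F (y + t • u) - F y)

/-- the class `C(m, b, ρ₀)` of pairs `(F, g)` with the symmetries `Γ` -/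
structure InClass {n q : ℕ} (Γ : Set (Symmetry n q)) (κ m b ρ₀ : ℝ) (F : R n → R q)
    (g : R n → ℝ) : Prop where
  smooth : ContDiff ℝ ∞ F ∧ ContDiff ℝ ∞ g
  lipschitz : (∀ x y, ‖F x - F y‖ ≤ ‖x - y‖) ∧ ∀ x y, |g x - g y| ≤ ‖x - y‖
  symmetric : ∀ γ ∈ Γ, ∀ x, F (γ.1 x) = γ.2 (F x) ∧ g (γ.1 x) = g x
  bounded : ∀ x, ‖F x‖ ≤ b ∧ |g x| ≤ b
  inside : ∀ x, g x < 2 * ρ₀ → ‖x‖ ≤ b
  separated : ∀ x, |g x| < 2 * ρ₀ → 2 * ρ₀ ≤ ‖F x‖
  regular : ∀ x, g x < 0 → F x = 0 → Surjective (fderiv ℝ F x)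
  coarse : ∀ x, g x < 0 → ∀ r, 0 < r → r ≤ ρ₀ → ‖F x‖ < r → CoarselySubmersive κ m F x r

/-- the zero set of `F` in the window `{g < 0}` -/
def zeroSet {n q : ℕ} (F : R n → R q) (g : R n → ℝ) : Set (R n) := {x | F x = 0 ∧ g x < 0}

/-- some diffeomorphism of `ℝⁿ`, equal to the identity outside a compact set and commuting with `Γ`, maps
`S` onto `S'` -/
def Equivalent {n q : ℕ} (Γ : Set (Symmetry n q)) (S S' : Set (R n)) : Prop :=
  ∃ Φ : R n → R n, ContDiff ℝ ∞ Φ ∧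
    (∃ Ψ : R n → R n, ContDiff ℝ ∞ Ψ ∧ LeftInverse Ψ Φ ∧ RightInverse Ψ Φ) ∧
    (∃ b : ℝ, ∀ x, b ≤ ‖x‖ → Φ x = x) ∧ (∀ γ ∈ Γ, ∀ x, Φ (γ.1 x) = γ.1 (Φ x)) ∧ Φ '' S = S'

/-- the relation `rel` between subsets of `ℝⁿ` is invariant under equivariant diffeomorphisms of `ℝⁿ` -/
def Invariant {n q : ℕ} (Γ : Set (Symmetry n q)) (rel : Set (R n) → Set (R n) → Prop) : Prop :=
  ∀ A A' B B' : Set (R n), Equivalent Γ A A' → Equivalent Γ B B' → rel A' B' → rel A B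

/-- smooth functions on `ℝⁿ` which are invariant under `Γ` -/
def SmoothInvariant {n q : ℕ} (Γ : Set (Symmetry n q)) (φ : R n → ℝ) : Prop :=
  ContDiff ℝ ∞ φ ∧ ∀ γ ∈ Γ, ∀ x, φ (γ.1 x) = φ x

/-- the orbit spaces of `S` and `S'` are diffeomorphic: there are maps `A : S → S'` and `B : S' → S` which
pull back the restrictions of invariant smooth functions to such restrictions, and which are mutually
inverse as far as invariant smooth functions can see. (For `Γ = ∅` this means that `S` and `S'` are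
diffeomorphic, for the free action of a compact group that the orbit spaces are.) -/
def OrbitDiffeomorphic {n q : ℕ} (Γ : Set (Symmetry n q)) (S S' : Set (R n)) : Prop :=
  ∃ A B : R n → R n, (∀ x ∈ S, A x ∈ S') ∧ (∀ y ∈ S', B y ∈ S) ∧
    ∀ φ : R n → ℝ, SmoothInvariant Γ φ →
      (∃ ψ, SmoothInvariant Γ ψ ∧ ∀ x ∈ S, φ (A x) = ψ x) ∧
      (∃ ψ, SmoothInvariant Γ ψ ∧ ∀ y ∈ S', φ (B y) = ψ y) ∧
      (∀ x ∈ S, φ (B (A x)) = φ x) ∧ ∀ y ∈ S', φ (A (B y)) = φ y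

/-- a regular pair with the symmetries `Γ`: the functions are smooth, Lipschitz and bounded, `h ≥ c`
outside a compact set, `|f| ≥ c` where `|h| < c`, for some `c > 0`, and `0` is a regular value of `f` on
`{h < 0}` -/
structure RegularPair {n q : ℕ} (Γ : Set (Symmetry n q)) (f : R n → R q) (h : R n → ℝ) : Prop where
  smooth : ContDiff ℝ ∞ f ∧ ContDiff ℝ ∞ h
  lipschitz : ∃ L : ℝ, (∀ x y, ‖f x - f y‖ ≤ L * ‖x - y‖) ∧ ∀ x y, |h x - h y| ≤ L * ‖x - y‖
  symmetric : ∀ γ ∈ Γ, ∀ x, f (γ.1 x) = γ.2 (f x) ∧ h (γ.1 x) = h x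
  bounded : ∃ B : ℝ, ∀ x, ‖f x‖ ≤ B ∧ |h x| ≤ B
  far : ∃ c a : ℝ, 0 < c ∧ (∀ x, h x < c → ‖x‖ ≤ a) ∧ ∀ x, |h x| < c → c ≤ ‖f x‖
  regular : ∀ x, h x < 0 → f x = 0 → Surjective (fderiv ℝ f x)

/-- a point with rational coordinates -/
noncomputable def pt {n : ℕ} (p : Fin n → ℚ) : R n := WithLp.toLp 2 fun i => (p i : ℝ)

/-- the program `c` computes `F` and `g`: for a rational point `p` and a natural number `N` it returns
integers `z_1, …, z_q, w` such that `z_i / (N + 1)` and `w / (N + 1)` differ from the coordinates of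
`F p` and from `g p` by at most `1 / (N + 1)` -/
def Computes {n q : ℕ} (c : Code) (F : R n → R q) (g : R n → ℝ) : Prop :=
  ∀ (p : Fin n → ℚ) (N : ℕ), ∃ (z : Fin q → ℤ) (w : ℤ),
    Encodable.encode (z, w) ∈ c.eval (Encodable.encode (p, N)) ∧
      (∀ i, |F (pt p) i - (z i : ℝ) / (N + 1)| ≤ 1 / (N + 1)) ∧
      |g (pt p) - (w : ℝ) / (N + 1)| ≤ 1 / (N + 1)

section proofs

open Pool.Agent.K7.H28 Pool.Agent.K7.H28.TR

/-- the symmetries of the library -/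
noncomputable def lib {n q : ℕ} (Γ : Set (Symmetry n q)) : Set (Pr (R n) (R q)) :=
  insert ((LinearIsometryEquiv.refl ℝ (R n), 0), LinearIsometryEquiv.refl ℝ (R q))
    ((fun γ : Symmetry n q => ((γ.1, (0 : R n)), γ.2)) '' Γ)

theorem lib_forall {n q : ℕ} {Γ : Set (Symmetry n q)} {p : Pr (R n) (R q) → Prop}
    (h1 : p ((LinearIsometryEquiv.refl ℝ (R n), 0), LinearIsometryEquiv.refl ℝ (R q)))
    (h2 : ∀ γ ∈ Γ, p ((γ.1, (0 : R n)), γ.2)) : ∀ γ ∈ lib Γ, p γ := by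
  rintro γ (rfl | ⟨γ', h, rfl⟩)
  · exact h1
  · exact h2 γ' h

theorem lib_one {n q : ℕ} (Γ : Set (Symmetry n q)) : ∃ γ ∈ lib Γ, ∀ x, EQ.act γ.1 x = x :=
  ⟨_, Set.mem_insert _ _, fun x => by simp [EQ.act]⟩

theorem act_lin {n : ℕ} (A : R n ≃ₗᵢ[ℝ] R n) (x : R n) : EQ.act (A, (0 : R n)) x = A x := by
  simp [EQ.act]

theorem InClass.toCls {n q : ℕ} {Γ : Set (Symmetry n q)} {κ m b ρ₀ : ℝ} {F : R n → R q}
    {g : R n → ℝ} (h : InClass Γ κ m b ρ₀ F g) :
    Cls (lib Γ) κ m (closedBall 0 b) (fun _ => ρ₀) F g where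
  smooth := h.smooth.1
  smooth' := h.smooth.2
  lip := h.lipschitz.1
  lip' := h.lipschitz.2
  equi := lib_forall (fun x => by simp [EQ.act]) fun γ hγ x => by
    rw [act_lin]
    exact (h.symmetric γ hγ x).1
  inv := lib_forall (fun x => by simp [EQ.act]) fun γ hγ x => by
    rw [act_lin]
    exact (h.symmetric γ hγ x).2
  win := fun x hx => by
    obtain ⟨γ, hγ, h1⟩ := lib_one Γ
    refine ⟨γ, hγ, ?_⟩
    rw [h1]
    exact mem_closedBall_zero_iff.2 (h.inside x hx)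
  sep := h.separated
  regular := h.regular
  sub := fun x hx r hr hr' hF => by
    obtain ⟨P, hP, hu⟩ := h.coarse x hx r hr hr' hF
    exact ⟨P, by rw [hP]; simp, hu⟩

theorem Cls.toClass {n q : ℕ} {Γ : Set (Symmetry n q)} {κ m b ρ₀ : ℝ} {F : R n → R q}
    {g : R n → ℝ} (h : Cls (lib Γ) κ m (closedBall 0 b) (fun _ => ρ₀) F g)
    (h1 : ∀ x, ‖F x‖ ≤ b) (h2 : ∀ x, |g x| ≤ b) (h3 : ∀ x, g x < 2 * ρ₀ → ‖x‖ ≤ b) :
    InClass Γ κ m b ρ₀ F g where
  smooth := ⟨h.smooth, h.smooth'⟩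
  lipschitz := ⟨h.lip, h.lip'⟩
  symmetric := fun γ hγ x => by
    have e1 := h.equi ((γ.1, (0 : R n)), γ.2) (Or.inr ⟨γ, hγ, rfl⟩) x
    have e2 := h.inv ((γ.1, (0 : R n)), γ.2) (Or.inr ⟨γ, hγ, rfl⟩) x
    rw [act_lin] at e1 e2
    exact ⟨e1, e2⟩
  bounded := fun x => ⟨h1 x, h2 x⟩
  inside := h3
  separated := h.sep
  regular := h.regular
  coarse := fun x hx r hr hr' hF => by
    obtain ⟨P, hP, hu⟩ := h.sub x hx r hr hr' hF
    exact ⟨P, by rw [hP]; simp, hu⟩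

theorem of_eqvT {n q : ℕ} {Γ : Set (Symmetry n q)} {b : ℝ} {S S' : Set (R n)}
    (h : EqvT (lib Γ) (closedBall 0 b) S S') : Equivalent Γ S S' := by
  obtain ⟨Φ, Ψ, h1, h2, h3, h4, h5, h6, h7⟩ := h
  refine ⟨Φ, h1, ⟨Ψ, h2, h3, h4⟩, ⟨b + 1, fun x hx => h6 x fun hb => ?_⟩, fun γ hγ x => ?_, ?_⟩
  · rw [mem_closedBall_zero_iff] at hb
    linarith
  · have := h5 ((γ.1, (0 : R n)), γ.2) (Or.inr ⟨γ, hγ, rfl⟩) x
    rwa [act_lin, act_lin] at this
  · ext y
    constructor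
    · rintro ⟨x, hx, rfl⟩
      exact (h7 x).1 hx
    · intro hy
      refine ⟨Ψ y, (h7 _).2 ?_, h4 y⟩
      rw [h4]
      exact hy

theorem Equivalent.symm {n q : ℕ} {Γ : Set (Symmetry n q)} {S S' : Set (R n)}
    (h : Equivalent Γ S S') : Equivalent Γ S' S := by
  obtain ⟨Φ, h1, ⟨Ψ, h2, h3, h4⟩, ⟨b, hb⟩, h5, h6⟩ := h
  refine ⟨Ψ, h2, ⟨Φ, h1, h4, h3⟩, ⟨b, fun x hx => ?_⟩, fun γ hγ x => ?_, ?_⟩
  · have := h3 x
    rw [hb x hx] at this
    exact this
  · have h7 := h5 γ hγ (Ψ x)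
    rw [h4] at h7
    rw [← h7, h3]
  · rw [← h6]
    ext x
    constructor
    · rintro ⟨y, ⟨z, hz, rfl⟩, rfl⟩
      rw [h3]
      exact hz
    · intro hx
      exact ⟨Φ x, ⟨x, hx, rfl⟩, h3 x⟩

theorem SmoothInvariant.comp {n q : ℕ} {Γ : Set (Symmetry n q)} {φ : R n → ℝ} {Ψ : R n → R n}
    (hφ : SmoothInvariant Γ φ) (hΨ : ContDiff ℝ ∞ Ψ)
    (h : ∀ γ ∈ Γ, ∀ x, Ψ (γ.1 x) = γ.1 (Ψ x)) : SmoothInvariant Γ (fun x => φ (Ψ x)) :=
  ⟨hφ.1.comp hΨ, fun γ hγ x => by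
    change φ (Ψ (γ.1 x)) = φ (Ψ x)
    rw [h γ hγ, hφ.2 γ hγ]⟩

theorem orbit_invariant {n q : ℕ} (Γ : Set (Symmetry n q)) :
    Invariant Γ (OrbitDiffeomorphic Γ) := by
  rintro S S' T T' ⟨Φ, a1, ⟨Ψ, a2, a3, a4⟩, -, a5, rfl⟩ ⟨Φ', b1, ⟨Ψ', b2, b3, b4⟩, -, b5, rfl⟩
    ⟨A, B, h1, h2, h3⟩
  have inv1 : ∀ γ ∈ Γ, ∀ x, Ψ (γ.1 x) = γ.1 (Ψ x) := fun γ hγ x => by
    have h7 := a5 γ hγ (Ψ x)
    rw [a4] at h7
    rw [← h7, a3]
  have inv2 : ∀ γ ∈ Γ, ∀ x, Ψ' (γ.1 x) = γ.1 (Ψ' x) := fun γ hγ x => by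
    have h7 := b5 γ hγ (Ψ' x)
    rw [b4] at h7
    rw [← h7, b3]
  have c1 : ∀ x ∈ S, Ψ' (A (Φ x)) ∈ T := by
    intro x hx
    obtain ⟨y, hy, hy'⟩ := h1 (Φ x) ⟨x, hx, rfl⟩
    rw [← hy', b3]
    exact hy
  have c2 : ∀ y ∈ T, Ψ (B (Φ' y)) ∈ S := by
    intro x hx
    obtain ⟨y, hy, hy'⟩ := h2 (Φ' x) ⟨x, hx, rfl⟩
    rw [← hy', a3]
    exact hy
  refine ⟨fun x => Ψ' (A (Φ x)), fun y => Ψ (B (Φ' y)), c1, c2, fun φ hφ => ⟨?_, ?_, ?_, ?_⟩⟩
  · obtain ⟨⟨ψ, hψ, hψ2⟩, -⟩ := h3 _ (hφ.comp b2 inv2)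
    exact ⟨_, hψ.comp a1 a5, fun x hx => hψ2 _ ⟨x, hx, rfl⟩⟩
  · obtain ⟨-, ⟨ψ, hψ, hψ2⟩, -⟩ := h3 _ (hφ.comp a2 inv1)
    exact ⟨_, hψ.comp b1 b5, fun x hx => hψ2 _ ⟨x, hx, rfl⟩⟩
  · intro x hx
    obtain ⟨-, -, h4, -⟩ := h3 _ (hφ.comp a2 inv1)
    have h5 := h4 (Φ x) ⟨x, hx, rfl⟩
    simp only at h5 ⊢
    rw [b4, h5, a3]
  · intro x hx
    obtain ⟨-, -, -, h4⟩ := h3 _ (hφ.comp b2 inv2)
    have h5 := h4 (Φ' x) ⟨x, hx, rfl⟩
    simp only at h5 ⊢
    rw [a4, h5, b3]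

theorem norm_le_of_coord {q : ℕ} {v : R q} {a : ℝ} (ha : 0 ≤ a) (h : ∀ i, |v i| ≤ a) :
    ‖v‖ ≤ Real.sqrt q * a := by
  rw [EuclideanSpace.norm_eq]
  have h1 : ∑ i, ‖v i‖ ^ 2 ≤ q * a ^ 2 := by
    have h2 : ∀ i ∈ (Finset.univ : Finset (Fin q)), ‖v i‖ ^ 2 ≤ a ^ 2 := by
      intro i _
      rw [Real.norm_eq_abs]
      exact pow_le_pow_left₀ (abs_nonneg _) (h i) 2
    have h4 := Finset.sum_le_card_nsmul _ _ _ h2
    rw [Finset.card_univ, Fintype.card_fin, nsmul_eq_mul] at h4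
    exact h4
  calc Real.sqrt _ ≤ Real.sqrt (q * a ^ 2) := Real.sqrt_le_sqrt h1
    _ = Real.sqrt q * a := by
      rw [Real.sqrt_mul (Nat.cast_nonneg _), Real.sqrt_sq ha]

end proofs

/-- Let `n` be a natural number. There is `κ > 0` with the following properties, for all `q`, all sets
`Γ` of symmetries, all `0 < m ≤ 1`, all `b` and all `ρ₀ > 0`.

(1) For every relation `rel` between subsets of `ℝⁿ` which is invariant under equivariant diffeomorphisms
of `ℝⁿ` there is an algorithm (a partial recursive function on pairs of programs) which for all programs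
`c`, `c'` which compute members `(F, g)` and `(G, k)` of the class `C(m, b, ρ₀)` halts on `(c, c')` and
decides whether `rel` holds for the zero sets of `(F, g)` and `(G, k)`. Diffeomorphism of the orbit spaces
is such a relation.

(2) Let `δ > 0` with `√n δ ≤ κ m ρ₀`. If `(F, g)` and `(G, k)` are in the class and their values at the
points `δ z`, `z ∈ ℤⁿ`, `|δ z_i| ≤ b`, differ by at most `κ m ρ₀`, then an equivariant diffeomorphism of
`ℝⁿ` with compact support maps the zero set of `(F, g)` onto the one of `(G, k)`.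

(3) Every regular pair is in one of the classes, after multiplication by a positive constant.

(4) Every compact set `M` which, in an open neighbourhood, is the zero set of a smooth map to `ℝ^q` with
surjective derivative at the points of `M` is the zero set of a regular pair (without symmetries). -/
theorem result (n : ℕ) : ∃ κ : ℝ, 0 < κ ∧
    (∀ (q : ℕ) (Γ : Set (Symmetry n q)) (m b ρ₀ : ℝ), 0 < m → m ≤ 1 → 0 < ρ₀ →
      ∀ rel : Set (R n) → Set (R n) → Prop, Invariant Γ rel →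
      ∃ A : Code × Code →. Bool, Partrec A ∧ ∀ (F G : R n → R q) (g k : R n → ℝ),
        InClass Γ κ m b ρ₀ F g → InClass Γ κ m b ρ₀ G k → ∀ c c' : Code, Computes c F g →
          Computes c' G k → ∃ r : Bool, r ∈ A (c, c') ∧ (r = true ↔ rel (zeroSet F g) (zeroSet G k))) ∧
    (∀ (q : ℕ) (Γ : Set (Symmetry n q)), Invariant Γ (OrbitDiffeomorphic Γ)) ∧
    (∀ (q : ℕ) (Γ : Set (Symmetry n q)) (m b ρ₀ δ : ℝ), 0 < m → m ≤ 1 → 0 < ρ₀ → 0 < δ →
      Real.sqrt n * δ ≤ κ * m * ρ₀ → ∀ (F G : R n → R q) (g k : R n → ℝ),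
        InClass Γ κ m b ρ₀ F g → InClass Γ κ m b ρ₀ G k →
        (∀ z : Fin n → ℤ, (∀ i, |δ * z i| ≤ b) →
          ‖F (WithLp.toLp 2 fun i => δ * (z i : ℝ)) - G (WithLp.toLp 2 fun i => δ * (z i : ℝ))‖ ≤
            κ * m * ρ₀ ∧
          |g (WithLp.toLp 2 fun i => δ * (z i : ℝ)) - k (WithLp.toLp 2 fun i => δ * (z i : ℝ))| ≤
            κ * m * ρ₀) → Equivalent Γ (zeroSet F g) (zeroSet G k)) ∧
    (∀ (q : ℕ) (Γ : Set (Symmetry n q)) (f : R n → R q) (h : R n → ℝ), RegularPair Γ f h →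
      ∃ m b ρ₀ l : ℝ, 0 < m ∧ m ≤ 1 ∧ 0 < ρ₀ ∧ 0 < l ∧
        InClass Γ κ m b ρ₀ (fun x => l • f x) (fun x => l * h x)) ∧
    ∀ (q : ℕ) (f : R n → R q) (M U : Set (R n)), ContDiff ℝ ∞ f → IsCompact M → IsOpen U →
      M ⊆ U → (∀ x ∈ U, f x = 0 ↔ x ∈ M) → (∀ x ∈ M, Surjective (fderiv ℝ f x)) →
      ∃ (f' : R n → R q) (h : R n → ℝ), RegularPair ∅ f' h ∧ zeroSet f' h = M := by
  classical
  obtain ⟨κ, hκ, -, key⟩ := Pool.Agent.K7.H28.TR.recogT (R n)
  have grid : ∀ (q : ℕ) (Γ : Set (Symmetry n q)) (m b ρ₀ δ : ℝ), 0 < m → m ≤ 1 → 0 < ρ₀ →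
      0 < δ → Real.sqrt n * δ ≤ κ * m * ρ₀ → ∀ (F G : R n → R q) (g k : R n → ℝ),
        InClass Γ κ m b ρ₀ F g → InClass Γ κ m b ρ₀ G k →
        (∀ z : Fin n → ℤ, (∀ i, |δ * z i| ≤ b) →
          ‖F (WithLp.toLp 2 fun i => δ * (z i : ℝ)) - G (WithLp.toLp 2 fun i => δ * (z i : ℝ))‖ ≤
            κ * m * ρ₀ ∧
          |g (WithLp.toLp 2 fun i => δ * (z i : ℝ)) - k (WithLp.toLp 2 fun i => δ * (z i : ℝ))| ≤
            κ * m * ρ₀) → Equivalent Γ (zeroSet F g) (zeroSet G k) := by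
    intro q Γ m b ρ₀ δ hm hm1 hρ₀ hδ hδκ F G g k hF hG hs
    obtain ⟨T, hT⟩ : ∃ T : Set (R n), T = {p | ∃ z : Fin n → ℤ, (∀ i, |δ * z i| ≤ b) ∧
        p = WithLp.toLp 2 fun i => δ * (z i : ℝ)} ∪ {p | b < ‖p‖} := ⟨_, rfl⟩
    have hT1 : ∀ y : R n, ∃ p ∈ T, ‖p - y‖ ≤ κ * m * ρ₀ := by
      intro y
      rw [hT]
      rcases lt_or_ge b ‖y‖ with hy | hy
      · exact ⟨y, Or.inr hy, by rw [sub_self, norm_zero]; positivity⟩
      · obtain ⟨z, hz1, hz2⟩ := Pool.Agent.K7.H28.DP.near_grid hδ y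
        exact ⟨_, Or.inl ⟨z, fun i => (hz1 i).trans
          ((Pool.Agent.K7.H28.DP.abs_coord_le y i).trans hy), rfl⟩, hz2.trans hδκ⟩
    refine of_eqvT (b := b) (key (R q) (lib Γ) m (closedBall 0 b) (closedBall 0 b) (fun _ => ρ₀) F G
      g k hm hm1 (isCompact_closedBall _ _) ⟨contDiff_const, fun _ _ _ => rfl, ⟨ρ₀, hρ₀,
        fun _ => le_rfl⟩, fun x y => ?_⟩ hF.toCls hG.toCls (fun x hx => ?_) (fun x hx => ?_) T hT1
      fun p hp => ?_)
    · rw [sub_self, abs_zero]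
      positivity
    · exact mem_closedBall_zero_iff.2 (hF.inside x (by linarith))
    · exact mem_closedBall_zero_iff.2 (hG.inside x (by linarith))
    · rw [hT] at hp
      rcases hp with ⟨z, hz, rfl⟩ | hp
      · exact Or.inl (hs z hz)
      · right
        have hp' : b < ‖p‖ := hp
        constructor
        · by_contra hn
          exact absurd (hF.inside p (not_le.1 hn)) (not_le.2 hp')
        · by_contra hn
          exact absurd (hG.inside p (not_le.1 hn)) (not_le.2 hp')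
  refine ⟨κ, hκ, ?_, fun q Γ => orbit_invariant Γ, grid, ?_, ?_⟩
  · intro q Γ m b ρ₀ hm hm1 hρ₀ rel hrel
    have hκm : 0 < κ * m * ρ₀ := by positivity
    obtain ⟨δ, hδ0, hδ1⟩ : ∃ δ : ℚ, 0 < δ ∧ Real.sqrt n * (δ : ℝ) ≤ κ * m * ρ₀ := by
      obtain ⟨δ, h1, h2⟩ := exists_rat_btwn (show 0 < κ * m * ρ₀ / (Real.sqrt n + 1) by positivity)
      refine ⟨δ, by exact_mod_cast h1, ?_⟩
      rw [lt_div_iff₀ (by positivity)] at h2
      nlinarith [Real.sqrt_nonneg (n : ℝ)]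
    have hδR : (0 : ℝ) < δ := by exact_mod_cast hδ0
    obtain ⟨N, hN⟩ := exists_nat_ge ((Real.sqrt q + 1) * 2 / (κ * m * ρ₀))
    have hN1 : (0 : ℝ) < N + 1 := by positivity
    have hN2 : (Real.sqrt q + 1) * (2 / ((N : ℝ) + 1)) ≤ κ * m * ρ₀ := by
      rw [← mul_div_assoc, div_le_iff₀ hN1]
      rw [div_le_iff₀ hκm] at hN
      nlinarith
    have hN3 : Real.sqrt q * (2 / ((N : ℝ) + 1)) ≤ κ * m * ρ₀ := by
      have : 0 ≤ 2 / ((N : ℝ) + 1) := by positivity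
      nlinarith
    have hN4 : 2 / ((N : ℝ) + 1) ≤ κ * m * ρ₀ := by
      have : 0 ≤ Real.sqrt q * (2 / ((N : ℝ) + 1)) := by positivity
      nlinarith
    obtain ⟨Q, hQ⟩ : ∃ Q : (R n → R q) × (R n → ℝ) → ℕ → ℕ → Prop, Q = fun a e v =>
        ∃ (p : Fin n → ℚ) (z : Fin q → ℤ) (w : ℤ), e = Encodable.encode (p, N) ∧
          v = Encodable.encode (z, w) ∧
          (∀ i, |a.1 (pt p) i - (z i : ℝ) / (N + 1)| ≤ 1 / (N + 1)) ∧
          |a.2 (pt p) - (w : ℝ) / (N + 1)| ≤ 1 / (N + 1) := ⟨_, rfl⟩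
    have hfin := Pool.Agent.K7.H28.DP.grid_finite (n := n) (R := b) hδR
    obtain ⟨L, hL⟩ : ∃ L : List ℕ, L = hfin.toFinset.toList.map fun z : Fin n → ℤ =>
        Encodable.encode ((fun i => δ * (z i : ℚ) : Fin n → ℚ), N) := ⟨_, rfl⟩
    have hLmem : ∀ z : Fin n → ℤ, (∀ i, |(δ : ℝ) * z i| ≤ b) →
        Encodable.encode ((fun i => δ * (z i : ℚ) : Fin n → ℚ), N) ∈ L := by
      intro z hz
      rw [hL]
      refine List.mem_map.2 ⟨z, ?_, rfl⟩
      rw [Finset.mem_toList, Set.Finite.mem_toFinset]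
      exact hz
    have hLq : ∀ e ∈ L, ∃ p : Fin n → ℚ, e = Encodable.encode (p, N) := by
      intro e he
      rw [hL] at he
      obtain ⟨z, _, rfl⟩ := List.mem_map.1 he
      exact ⟨_, rfl⟩
    have hpt : ∀ z : Fin n → ℤ, pt (fun i => δ * (z i : ℚ)) =
        (WithLp.toLp 2 fun i => (δ : ℝ) * (z i : ℝ) : R n) := by
      intro z
      unfold pt
      congr 1
      funext i
      push_cast
      rfl
    have heq : ∀ a a' : (R n → R q) × (R n → ℝ), InClass Γ κ m b ρ₀ a.1 a.2 →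
        InClass Γ κ m b ρ₀ a'.1 a'.2 → (∀ e ∈ L, ∃ v, Q a e v ∧ Q a' e v) →
        Equivalent Γ (zeroSet a.1 a.2) (zeroSet a'.1 a'.2) := by
      rintro ⟨F, g⟩ ⟨G, k⟩ hF hG hs
      refine grid q Γ m b ρ₀ δ hm hm1 hρ₀ hδR hδ1 F G g k hF hG fun z hz => ?_
      obtain ⟨v, h1, h2⟩ := hs _ (hLmem z hz)
      rw [hQ] at h1 h2
      obtain ⟨p, y, w, e1, e2, e3, e4⟩ := h1
      obtain ⟨p', y', w', e1', e2', e3', e4'⟩ := h2
      have hp : p = fun i => δ * (z i : ℚ) :=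
        (congrArg Prod.fst (Encodable.encode_injective e1)).symm
      have hp' : p' = fun i => δ * (z i : ℚ) :=
        (congrArg Prod.fst (Encodable.encode_injective e1')).symm
      have hyw : (y, w) = (y', w') := Encodable.encode_injective (e2.symm.trans e2')
      obtain ⟨rfl, rfl⟩ := Prod.mk.inj hyw
      rw [hp, hpt] at e3 e4
      rw [hp', hpt] at e3' e4'
      simp only at e3 e4 e3' e4'
      constructor
      · refine (norm_le_of_coord (a := 2 / ((N : ℝ) + 1)) (by positivity) fun i => ?_).trans hN3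
        have f1 := abs_le.1 (e3 i)
        have f2 := abs_le.1 (e3' i)
        have f3 : 2 / ((N : ℝ) + 1) = 1 / (N + 1) + 1 / (N + 1) := by ring
        rw [PiLp.sub_apply, abs_le, f3]
        constructor <;> linarith [f1.1, f1.2, f2.1, f2.2]
      · refine le_trans ?_ hN4
        have f1 := abs_le.1 e4
        have f2 := abs_le.1 e4'
        have f3 : 2 / ((N : ℝ) + 1) = 1 / (N + 1) + 1 / (N + 1) := by ring
        rw [abs_le, f3]
        constructor <;> linarith [f1.1, f1.2, f2.1, f2.2]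
    -- finitely many admissible answers
    have hfinite : ∀ e ∈ L, {v | ∃ a : (R n → R q) × (R n → ℝ),
        InClass Γ κ m b ρ₀ a.1 a.2 ∧ Q a e v}.Finite := by
      intro e he
      obtain ⟨J, hJ⟩ := exists_nat_ge ((b + 1) * ((N : ℝ) + 1))
      have hbox : ({p : (Fin q → ℤ) × ℤ | (∀ i, p.1 i ∈ Icc (-(J : ℤ)) J) ∧
          p.2 ∈ Icc (-(J : ℤ)) J}).Finite := by
        have h1 : (Set.pi univ fun _ : Fin q => Icc (-(J : ℤ)) J).Finite :=
          Set.Finite.pi fun _ => Set.finite_Icc _ _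
        refine (h1.prod (Set.finite_Icc (-(J : ℤ)) J)).subset ?_
        rintro ⟨z, w⟩ ⟨h2, h3⟩
        exact ⟨fun i _ => h2 i, h3⟩
      refine (hbox.image Encodable.encode).subset ?_
      rintro v ⟨⟨F, g⟩, hP, hv⟩
      rw [hQ] at hv
      obtain ⟨p, z, w, -, rfl, h2, h3⟩ := hv
      refine ⟨(z, w), ?_, rfl⟩
      have hbd : ∀ (s : ℝ) (y : ℤ), |s| ≤ b → |s - (y : ℝ) / (N + 1)| ≤ 1 / (N + 1) →
          y ∈ Icc (-(J : ℤ)) J := by
        intro s y hs hy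
        have g1 := abs_le.1 hs
        have g2 := abs_le.1 hy
        have g3 : 1 / ((N : ℝ) + 1) ≤ 1 := by
          rw [div_le_one hN1]
          have : (0 : ℝ) ≤ N := Nat.cast_nonneg _
          linarith
        have g4 : (y : ℝ) / (N + 1) ≤ b + 1 := by linarith [g2.1]
        have g5 : -(b + 1) ≤ (y : ℝ) / (N + 1) := by linarith [g2.2]
        rw [div_le_iff₀ hN1] at g4
        rw [le_div_iff₀ hN1] at g5
        constructor
        · have : (-(J : ℝ)) ≤ y := by linarith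
          exact_mod_cast this
        · have : (y : ℝ) ≤ J := by linarith
          exact_mod_cast this
      have hPb := hP.bounded (pt p)
      exact ⟨fun i => hbd _ _ ((Pool.Agent.K7.H28.DP.abs_coord_le _ i).trans hPb.1) (h2 i),
        hbd _ _ hPb.2 h3⟩
    obtain ⟨A, hA, hA2⟩ := Pool.Agent.K7.H28.DP.algorithm2
      (fun a : (R n → R q) × (R n → ℝ) => InClass Γ κ m b ρ₀ a.1 a.2)
      (fun a a' => rel (zeroSet a.1 a.2) (zeroSet a'.1 a'.2)) L Q hfinite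
      (fun a a' d d' ha ha' hd hd' h1 h2 hr =>
        hrel _ _ _ _ (heq a a' ha ha' h1) (heq d d' hd hd' h2) hr)
    refine ⟨A, hA, fun F G g k hF hG c c' hc hc' => hA2 (F, g) (G, k) hF hG c c' ?_ ?_⟩
    · intro e he
      obtain ⟨p, rfl⟩ := hLq e he
      obtain ⟨z, w, h1, h2, h3⟩ := hc p N
      refine ⟨_, h1, ?_⟩
      rw [hQ]
      exact ⟨p, z, w, rfl, rfl, h2, h3⟩
    · intro e he
      obtain ⟨p, rfl⟩ := hLq e he
      obtain ⟨z, w, h1, h2, h3⟩ := hc' p N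
      refine ⟨_, h1, ?_⟩
      rw [hQ]
      exact ⟨p, z, w, rfl, rfl, h2, h3⟩
  · intro q Γ f h hp
    obtain ⟨L, hL1, hL2⟩ := hp.lipschitz
    obtain ⟨B, hB⟩ := hp.bounded
    obtain ⟨c, a, hc, hc1, hc2⟩ := hp.far
    obtain ⟨m, b, ρ₀, l, h1, h2, h3, h4, h5, h6, h7, h8⟩ := Pool.Agent.K7.H28.TR.exhaustE
      hp.smooth.1 hp.smooth.2 (L := max L 0) (le_max_right _ _)
      (fun x y => (hL1 x y).trans (mul_le_mul_of_nonneg_right (le_max_left _ _) (norm_nonneg _)))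
      (fun x y => (hL2 x y).trans (mul_le_mul_of_nonneg_right (le_max_left _ _) (norm_nonneg _)))
      (fun x => (hB x).1) (fun x => (hB x).2) hc hc1 hc2 hp.regular hκ
    refine ⟨m, b, ρ₀, l, h1, h2, h3, h4, Cls.toClass (h8 (lib Γ) (lib_one Γ) ?_ ?_) h5 h6 h7⟩
    · exact lib_forall (fun x => by simp [Pool.Agent.K7.H28.EQ.act]) fun γ hγ x => by
        rw [act_lin]
        exact (hp.symmetric γ hγ x).1
    · exact lib_forall (fun x => by simp [Pool.Agent.K7.H28.EQ.act]) fun γ hγ x => by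
        rw [act_lin]
        exact (hp.symmetric γ hγ x).2
  · intro q f M U hf hM hU hMU h0 hreg
    obtain ⟨F, g, L, B, a, c, h1, h2, h3, h4, h5, h6, h7, h8, h9, h10, h11, h12, -⟩ :=
      Pool.Agent.K7.H28.TR.exists_pair hf hM hU hMU h0 hreg
    exact ⟨F, g, ⟨⟨h1, h2⟩, ⟨L, h4, h5⟩, fun γ hγ => absurd hγ (notMem_empty γ), ⟨B, fun x =>
      ⟨h6 x, h7 x⟩⟩, ⟨c, a, h8, h9, h10⟩, h11⟩, h12⟩

end Pool.Agent.Results.MP_d40431_gt.ZeroSetAlgorithm
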